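import Pool.Agent.Q27.UC.Tests

/-!
# Assembly of the levels
-/

set_option autoImplicit false

namespace Q27.UC

open Finset

/-- The number of bits used at level `i`. -/
def lev (I i : ℕ) : ℕ := if i < I - 2 then 16 + (I - i) + 6 * i else 6 * I + 6

theorem lev_of_lt {I i : ℕ} (h : i < I - 2) : lev I i = 16 + (I - i) + 6 * i := if_pos h

theorem lev_of_not_lt {I i : ℕ} (h : ¬ i < I - 2) : lev I i = 6 * I + 6 := if_neg h

theorem exists_fam {k I : ℕ} (hk0 : 0 < k) (hk : k < 2 ^ (6 * (I + 1))) (i : ℕ) :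
    ∃ Y : (Fin (lev I i) → Bool) → FreeGroup (Fin k),
      (i < I - 2 → (∀ v, (Y v).norm * 2 ^ (6 * i) ≤ 2 ^ 8 * k) ∧
        ∀ H : Subgroup (FreeGroup (Fin k)),
          (fails Y H).card ≤ 2 ^ (4 + (I - i)) * (out H).card ∧
          (2 ^ (6 * i) ≤ 64 * (out H).card → (out H).card ≤ 2 ^ (6 * i) →
            2 ^ (4 + (I - i)) * (out H).card ≤ 4 * (fails Y H).card)) ∧
      (¬ i < I - 2 → (∀ v, (Y v).norm ≤ 1) ∧
        ∀ H : Subgroup (FreeGroup (Fin k)), (fails Y H).card = (out H).card) := by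
  by_cases h : i < I - 2
  · have h1 : k < 2 ^ (6 * ((I - i) + i + 1)) := by
      rw [show (I - i) + i + 1 = I + 1 by omega]
      exact hk
    obtain ⟨Y, hY1, hY2⟩ := level hk0 h1
    rw [lev_of_lt h]
    exact ⟨Y, fun _ => ⟨hY1, hY2⟩, fun h' => absurd h h'⟩
  · have h1 : k ≤ 2 ^ (6 * I + 6) := by
      rw [show 6 * I + 6 = 6 * (I + 1) by ring]
      exact hk.le
    obtain ⟨Y, hY1, hY2⟩ := top_level h1
    rw [lev_of_not_lt h]
    exact ⟨Y, fun h' => absurd h' h, fun _ => ⟨hY1, hY2⟩⟩

theorem one_le_out {k : ℕ} {H : Subgroup (FreeGroup (Fin k))} (hH : H ≠ ⊤) :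
    1 ≤ (out H).card := by
  classical
  by_contra hcon
  have h1 : out H = ∅ := by
    rw [← card_eq_zero]
    omega
  apply hH
  rw [eq_top_iff, ← FreeGroup.closure_range_of, Subgroup.closure_le]
  rintro _ ⟨l, rfl⟩
  by_contra h2
  have h3 : l ∈ out H := mem_filter.2 ⟨mem_univ _, h2⟩
  rw [h1] at h3
  exact absurd h3 (notMem_empty l)

open Classical in
theorem exists_tests {k I : ℕ} (hk0 : 0 < k) (hk : k < 2 ^ (6 * (I + 1))) :
    ∃ w : (Fin (6 * I + 7) → Bool) → FreeGroup (Fin k),
      (∀ b, (w b).norm ≤ 2 ^ 9 * k + 1) ∧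
      ∀ H : Subgroup (FreeGroup (Fin k)), H ≠ ⊤ →
        2 ^ (6 * I + 7) ≤ 2 ^ 25 * (univ.filter fun b => w b ∉ H).card := by
  choose Y' hY1 hY2 using exists_fam hk0 hk
  set Y : ℕ → (Fin (6 * I + 7) → Bool) → FreeGroup (Fin k) :=
    fun i b => Y' i (restr (lev I i) b) with hY
  have hlt : ∀ i, lev I i ≤ 6 * I + 6 := by
    intro i
    by_cases h : i < I - 2
    · rw [lev_of_lt h]; omega
    · rw [lev_of_not_lt h]
  have good : Good (6 * I + 7) (I - 2 + 1) (lev I) Y := by
    refine ⟨?_, ?_, ?_⟩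
    · intro i j hij hj
      have h1 : i < I - 2 := by omega
      rw [lev_of_lt h1]
      by_cases h : j < I - 2
      · rw [lev_of_lt h]; omega
      · rw [lev_of_not_lt h]; omega
    · intro i _
      have := hlt i
      omega
    · intro n _ b b' h
      have h1 : restr (lev I n) b = restr (lev I n) b' := by
        funext j
        exact h j.val j.isLt
      simp only [hY, h1]
  refine ⟨wd (lev I) Y (I - 2 + 1), ?_, ?_⟩
  · intro b
    refine (norm_wd_le _ _ _ b).trans ?_
    rw [sum_range_succ]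
    have h1 : (Y (I - 2) b).norm ≤ 1 := (hY2 (I - 2) (lt_irrefl _)).1 _
    have h2 : ∑ i ∈ range (I - 2), (Y i b).norm ≤ ∑ i ∈ range (I - 2), 2 ^ 8 * k / 64 ^ i := by
      apply sum_le_sum
      intro i hi
      have h3 := (hY1 i (mem_range.1 hi)).1 (restr (lev I i) b)
      rw [Nat.le_div_iff_mul_le (by positivity)]
      rw [pow_mul] at h3
      exact h3
    have h3 : ∑ i ∈ range (I - 2), 2 ^ 8 * k / 64 ^ i ≤ 2 ^ 8 * k * 64 / (64 - 1) :=
      Nat.geom_sum_le (by norm_num) _ _
    omega
  · intro H hH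
    have he1 := one_le_out hH
    set e := (out H).card with he
    set W := (univ.filter fun b => wd (lev I) Y (I - 2 + 1) b ∉ H).card with hW
    have hF : ∀ i, (univ.filter fun b => Y i b ∉ H).card =
        2 ^ (6 * I + 7 - lev I i) * (fails (Y' i) H).card := by
      intro i
      have := hlt i
      exact card_restr (T := 6 * I + 7) (t := lev I i) (by omega) (fun v => Y' i v ∉ H)
    set F : ℕ → ℕ := fun i => (univ.filter fun b => Y i b ∉ H).card with hFdef
    have hF1 : ∀ i, i < I - 2 → F i ≤ 2 ^ (6 * (I - i) - 5) * e := by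
      intro i hi
      have h1 := ((hY1 i hi).2 H).1
      rw [show F i = _ from hF i]
      refine (Nat.mul_le_mul_left _ h1).trans (le_of_eq ?_)
      rw [← mul_assoc, ← pow_add, lev_of_lt hi]
      congr 2
      omega
    have hF2 : ∀ i, i < I - 2 → 2 ^ (6 * i) ≤ 64 * e → e ≤ 2 ^ (6 * i) →
        2 ^ (6 * (I - i) - 5) * e ≤ 4 * F i := by
      intro i hi h1 h2
      have h3 := ((hY1 i hi).2 H).2 h1 h2
      rw [show F i = _ from hF i]
      calc 2 ^ (6 * (I - i) - 5) * e = 2 ^ (6 * I + 7 - lev I i) * (2 ^ (4 + (I - i)) * e) := by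
            rw [← mul_assoc, ← pow_add, lev_of_lt hi]
            congr 2
            omega
        _ ≤ 2 ^ (6 * I + 7 - lev I i) * (4 * (fails (Y' i) H).card) := Nat.mul_le_mul_left _ h3
        _ = _ := by ring
    have hF3 : F (I - 2) = 2 * e := by
      have h1 := (hY2 (I - 2) (lt_irrefl _)).2 H
      rw [show F (I - 2) = _ from hF (I - 2), h1, lev_of_not_lt (lt_irrefl _),
        show 6 * I + 7 - (6 * I + 6) = 1 by omega]
      rfl
    by_cases hcase : e ≤ 2 ^ (6 * (I - 3)) ∧ 3 ≤ I
    · obtain ⟨hc1, hc2⟩ := hcase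
      -- the sums
      have hS : ∀ d j, j + d = I - 2 →
          ∑ l ∈ Ico j (I - 2 + 1), F l ≤ 2 ^ (6 * (I - j) - 4) * e := by
        intro d
        induction d with
        | zero =>
          intro j hj
          have hj' : j = I - 2 := by omega
          rw [hj', Nat.Ico_succ_singleton, sum_singleton, hF3, show 6 * (I - (I - 2)) - 4 = 8 by omega]
          omega
        | succ d ih =>
          intro j hj
          have h1 := ih (j + 1) (by omega)
          rw [Finset.sum_eq_sum_Ico_succ_bot (by omega)]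
          have h2 := hF1 j (by omega)
          have e1 : 6 * (I - (j + 1)) - 4 + 5 = 6 * (I - j) - 5 := by omega
          have e2 : 6 * (I - j) - 4 = 6 * (I - (j + 1)) - 4 + 6 := by omega
          rw [← e1, pow_add] at h2
          rw [e2, pow_add]
          nlinarith
      -- the level
      have hex : ∃ i, e ≤ 2 ^ (6 * i) := ⟨_, hc1⟩
      set i := Nat.find hex with hi
      have hi1 : e ≤ 2 ^ (6 * i) := Nat.find_spec hex
      have hi2 : i ≤ I - 3 := Nat.find_min' hex hc1
      have hi3 : 2 ^ (6 * i) ≤ 64 * e := by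
        rcases Nat.eq_zero_or_pos i with h0 | h0
        · rw [h0]
          norm_num
          omega
        · have h1 : ¬ e ≤ 2 ^ (6 * (i - 1)) := Nat.find_min hex (by omega)
          have h2 : 2 ^ (6 * i) = 2 ^ (6 * (i - 1)) * 64 := by
            rw [show 6 * i = 6 * (i - 1) + 6 by omega, pow_add]
            norm_num
          rw [h2]
          omega
      have h1 := hF2 i (by omega) hi3 hi1
      have h2 := good.detect H (i := i) (by omega)
      have h3 := hS (I - 2 - (i + 1)) (i + 1) (by omega)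
      have e0 : Ioo i (I - 2 + 1) = Ico (i + 1) (I - 2 + 1) := by
        ext x
        rw [mem_Ioo, mem_Ico]
        omega
      rw [e0] at h2
      have h2' : F i ≤ 2 * W + 2 * ∑ l ∈ Ico (i + 1) (I - 2 + 1), F l := h2
      -- exponents
      have e1 : 6 * (I - i) - 5 = (6 * (I - (i + 1)) - 4) + 5 := by omega
      rw [e1, pow_add] at h1
      have e2 : 6 * I + 7 = (6 * (I - (i + 1)) - 4) + 6 * i + 17 := by omega
      rw [e2, pow_add, pow_add]
      set X := 2 ^ (6 * (I - (i + 1)) - 4) with hX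
      have h4 : X * 2 ^ (6 * i) ≤ X * (64 * e) := Nat.mul_le_mul_left _ hi3
      have h5 : X * (64 * e) = 64 * (X * e) := by ring
      have h6 : X * 2 ^ 5 * e = 32 * (X * e) := by ring
      rw [h5] at h4
      rw [h6] at h1
      generalize X * e = Z at *
      generalize X * 2 ^ (6 * i) = U at *
      omega
    · have h1 : 2 ^ (6 * I) ≤ 2 ^ 18 * e := by
        by_cases h3 : 3 ≤ I
        · have h4 : 2 ^ (6 * (I - 3)) < e := by
            by_contra h5
            exact hcase ⟨by omega, h3⟩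
          rw [show 6 * I = 18 + 6 * (I - 3) by omega, pow_add]
          exact Nat.mul_le_mul_left _ h4.le
        · calc 2 ^ (6 * I) ≤ 2 ^ 18 := Nat.pow_le_pow_right (by norm_num) (by omega)
            _ ≤ 2 ^ 18 * e := Nat.le_mul_of_pos_right _ he1
      have h2 := good.detect H (i := I - 2) (by omega)
      have e0 : Ioo (I - 2) (I - 2 + 1) = (∅ : Finset ℕ) := by
        ext x
        rw [mem_Ioo]
        simp only [notMem_empty, iff_false]
        omega
      rw [e0, sum_empty] at h2
      have h2' : F (I - 2) ≤ 2 * W + 2 * 0 := h2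
      rw [hF3] at h2'
      rw [pow_add]
      omega

end Q27.UC
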