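import Mathlib

/-!
# Existence of unique neighbour graphs
-/

set_option autoImplicit false

namespace Q27.UC

open Finset

section

variable {α V : Type*} [Fintype α] [DecidableEq α] [Fintype V] [DecidableEq V]

/-- The elements of `V` with exactly one preimage in `P`. -/
def uniq (f : α → V) (P : Finset α) : Finset V :=
  univ.filter fun v => (P.filter fun a => f a = v).card = 1

omit [Fintype α] [DecidableEq α] in
theorem two_image_le (f : α → V) (P : Finset α) :
    2 * (P.image f).card ≤ P.card + (uniq f P).card := by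
  have h1 : P.card = ∑ v ∈ P.image f, (P.filter fun a => f a = v).card :=
    card_eq_sum_card_image f P
  have h2 : ((P.image f).filter fun v => (P.filter fun a => f a = v).card = 1).card ≤
      (uniq f P).card := by
    apply card_le_card
    intro v hv
    exact mem_filter.2 ⟨mem_univ _, (mem_filter.1 hv).2⟩
  have h3 : 2 * (P.image f).card ≤ (∑ v ∈ P.image f, (P.filter fun a => f a = v).card) +
      ((P.image f).filter fun v => (P.filter fun a => f a = v).card = 1).card := by
    rw [card_filter, ← sum_add_distrib, mul_comm, ← smul_eq_mul, ← sum_const]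
    apply sum_le_sum
    intro v hv
    have h4 : 0 < (P.filter fun a => f a = v).card := by
      rw [card_pos]
      obtain ⟨a, ha, rfl⟩ := mem_image.1 hv
      exact ⟨a, mem_filter.2 ⟨ha, rfl⟩⟩
    split_ifs with h5 <;> omega
  omega

theorem card_functions (P : Finset α) (S : Finset V) :
    (univ.filter fun f : α → V => ∀ a ∈ P, f a ∈ S).card =
      S.card ^ P.card * (Fintype.card V) ^ (Fintype.card α - P.card) := by
  have e : (univ.filter fun f : α → V => ∀ a ∈ P, f a ∈ S) =
      Fintype.piFinset (fun a => if a ∈ P then S else univ) := by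
    ext f
    rw [mem_filter, Fintype.mem_piFinset]
    constructor
    · rintro ⟨-, h⟩ a
      split_ifs with h1
      · exact h a h1
      · exact mem_univ _
    · intro h
      refine ⟨mem_univ _, fun a ha => ?_⟩
      have := h a
      rwa [if_pos ha] at this
  rw [e, Fintype.card_piFinset]
  have e2 : ∀ a, (if a ∈ P then S else univ).card = if a ∈ P then S.card else Fintype.card V := by
    intro a
    split_ifs
    · rfl
    · exact card_univ
  rw [prod_congr rfl (fun a _ => e2 a), prod_ite, prod_const, prod_const]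
  congr 2
  · congr 1
    ext a
    simp
  · have h1 : (univ.filter fun a => a ∉ P) = Pᶜ := by
      ext a
      simp
    rw [h1, card_compl]

end

theorem sum_half_lt (s : Finset ℕ) (hs : ∀ e ∈ s, 1 ≤ e) : ∑ e ∈ s, (1 / 2 : ℝ) ^ e < 1 := by
  have h1 : s ⊆ (range (s.sup id + 1)).erase 0 := by
    intro e he
    rw [mem_erase, mem_range]
    have h2 : e ≤ s.sup id := le_sup (f := id) he
    exact ⟨by have := hs e he; omega, by omega⟩
  have h2 : ∑ e ∈ s, (1 / 2 : ℝ) ^ e ≤ ∑ e ∈ (range (s.sup id + 1)).erase 0, (1 / 2 : ℝ) ^ e :=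
    sum_le_sum_of_subset_of_nonneg h1 (fun _ _ _ => by positivity)
  refine lt_of_le_of_lt h2 ?_
  generalize s.sup id = M
  have h3 : ∑ e ∈ (range (M + 1)).erase 0, (1 / 2 : ℝ) ^ e = 1 - (1 / 2) ^ M := by
    have h4 := Finset.add_sum_erase (range (M + 1)) (fun e => (1 / 2 : ℝ) ^ e)
      (mem_range.2 (Nat.succ_pos M))
    have h5 : ∑ e ∈ range (M + 1), (1 / 2 : ℝ) ^ e = 2 - (1 / 2) ^ M := by
      rw [geom_sum_eq (by norm_num), pow_succ]
      ring
    rw [h5] at h4
    simp only [pow_zero] at h4
    linarith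
  rw [h3]
  have : (0 : ℝ) < (1 / 2) ^ M := by positivity
  linarith

/-- Existence of graphs with many unique neighbours, by counting. -/
theorem exists_graph (k D : ℕ) (V : Type) [Fintype V] [DecidableEq V] (Q : ℕ → Prop)
    (hQ1 : ∀ e, Q e → 1 ≤ e) (hn : 0 < Fintype.card V)
    (hQ : ∀ e q, Q e → e ≤ k → 4 * q = e * D → 3 * q ≤ Fintype.card V ∧
      k.choose e * (Fintype.card V).choose (3 * q) * (3 * q) ^ (4 * q) * 2 ^ e ≤
        (Fintype.card V) ^ (4 * q)) (hD : 4 ∣ D) :
    ∃ f : Fin k × Fin D → V, ∀ E : Finset (Fin k), Q E.card →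
      D * E.card ≤ 2 * (uniq f (E ×ˢ univ)).card := by
  classical
  by_contra hcon
  push Not at hcon
  set n := Fintype.card V with hn'
  obtain ⟨d, hd⟩ := hD
  -- every function is in the union
  set 𝓔 := (univ : Finset (Fin k)).powerset.filter (fun E => Q E.card) with h𝓔
  have hcover : (univ : Finset (Fin k × Fin D → V)) ⊆ 𝓔.biUnion fun E =>
      ((univ : Finset V).powersetCard (3 * (E.card * d))).biUnion fun S =>
        univ.filter fun f : Fin k × Fin D → V => ∀ a ∈ (E ×ˢ univ : Finset (Fin k × Fin D)),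
          f a ∈ S := by
    intro f _
    obtain ⟨E, hE, hlt⟩ := hcon f
    have h1 := two_image_le f (E ×ˢ univ : Finset (Fin k × Fin D))
    have hcardP : (E ×ˢ univ : Finset (Fin k × Fin D)).card = E.card * D := by
      rw [card_product, card_univ, Fintype.card_fin]
    rw [hcardP] at h1
    have hek : E.card ≤ k := by
      have := card_le_univ E
      rwa [Fintype.card_fin] at this
    have h2 := (hQ E.card (E.card * d) hE hek (by rw [hd]; ring)).1
    have h3 : ((E ×ˢ univ : Finset (Fin k × Fin D)).image f).card ≤ 3 * (E.card * d) := by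
      have e1 : E.card * D = 4 * (E.card * d) := by rw [hd]; ring
      have e2 : D * E.card = 4 * (E.card * d) := by rw [hd]; ring
      rw [e1] at h1
      rw [e2] at hlt
      omega
    obtain ⟨S, hS1, hS2⟩ := exists_superset_card_eq h3 h2
    rw [mem_biUnion]
    refine ⟨E, mem_filter.2 ⟨mem_powerset.2 (subset_univ _), hE⟩, ?_⟩
    rw [mem_biUnion]
    refine ⟨S, mem_powersetCard.2 ⟨subset_univ _, hS2⟩, mem_filter.2 ⟨mem_univ _, ?_⟩⟩
    intro a ha
    exact hS1 (mem_image_of_mem f ha)
  have h1 : n ^ (k * D) ≤ ∑ E ∈ 𝓔, n.choose (3 * (E.card * d)) *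
      ((3 * (E.card * d)) ^ (E.card * D) * n ^ (k * D - E.card * D)) := by
    have h2 := card_le_card hcover
    rw [card_univ, Fintype.card_fun, Fintype.card_prod, Fintype.card_fin, Fintype.card_fin] at h2
    refine h2.trans (card_biUnion_le.trans ?_)
    apply sum_le_sum
    intro E _
    refine card_biUnion_le.trans ?_
    have h3 : ∀ S ∈ (univ : Finset V).powersetCard (3 * (E.card * d)),
        (univ.filter fun f : Fin k × Fin D → V =>
          ∀ a ∈ (E ×ˢ univ : Finset (Fin k × Fin D)), f a ∈ S).card =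
        (3 * (E.card * d)) ^ (E.card * D) * n ^ (k * D - E.card * D) := by
      intro S hS
      rw [card_functions, (mem_powersetCard.1 hS).2, card_product, card_univ, Fintype.card_prod,
        Fintype.card_fin, Fintype.card_fin]
    rw [sum_congr rfl h3, sum_const, card_powersetCard, card_univ, smul_eq_mul]
  -- the sum is too small
  have hnR : (0 : ℝ) < n := by exact_mod_cast hn
  have h2 : ((n : ℝ)) ^ (k * D) ≤ ∑ E ∈ 𝓔, (n : ℝ) ^ (k * D) / (k.choose E.card * 2 ^ E.card) := by
    have h3 : ((n : ℝ)) ^ (k * D) ≤ ((∑ E ∈ 𝓔, n.choose (3 * (E.card * d)) *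
      ((3 * (E.card * d)) ^ (E.card * D) * n ^ (k * D - E.card * D)) : ℕ) : ℝ) := by
      exact_mod_cast h1
    refine h3.trans ?_
    push_cast
    apply sum_le_sum
    intro E hE
    have hek : E.card ≤ k := by
      have := card_le_univ E
      rwa [Fintype.card_fin] at this
    have e1 : 4 * (E.card * d) = E.card * D := by rw [hd]; ring
    have h4 := (hQ E.card (E.card * d) (mem_filter.1 hE).2 hek e1).2
    rw [e1] at h4
    have h5 : ((k.choose E.card : ℕ) : ℝ) * ((n.choose (3 * (E.card * d)) : ℕ) : ℝ) *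
        (3 * (E.card * d)) ^ (E.card * D) * 2 ^ E.card ≤ (n : ℝ) ^ (E.card * D) := by
      exact_mod_cast h4
    have hpos : (0 : ℝ) < (k.choose E.card : ℝ) * 2 ^ E.card := by
      have : 0 < k.choose E.card := Nat.choose_pos hek
      positivity
    rw [le_div_iff₀ hpos]
    have e2 : (n : ℝ) ^ (k * D) = (n : ℝ) ^ (E.card * D) * (n : ℝ) ^ (k * D - E.card * D) := by
      rw [← pow_add]
      congr 1
      have := Nat.mul_le_mul_right D hek
      omega
    rw [e2]
    calc _ = (((k.choose E.card : ℕ) : ℝ) * ((n.choose (3 * (E.card * d)) : ℕ) : ℝ) *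
        (3 * (E.card * d)) ^ (E.card * D) * 2 ^ E.card) * (n : ℝ) ^ (k * D - E.card * D) := by
          ring
      _ ≤ _ := mul_le_mul_of_nonneg_right h5 (by positivity)
  -- evaluate the sum
  have h3 : ∑ E ∈ 𝓔, (n : ℝ) ^ (k * D) / (k.choose E.card * 2 ^ E.card) =
      (n : ℝ) ^ (k * D) * ∑ e ∈ (range (k + 1)).filter Q, (1 / 2 : ℝ) ^ e := by
    rw [h𝓔, sum_filter, Finset.sum_powerset_apply_card
      (fun e => if Q e then (n : ℝ) ^ (k * D) / (k.choose e * 2 ^ e) else 0), card_univ,
      Fintype.card_fin, mul_sum, sum_filter]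
    apply sum_congr rfl
    intro e he
    split_ifs with h4
    · rw [nsmul_eq_mul]
      have h5 : (0 : ℝ) < k.choose e := by
        exact_mod_cast Nat.choose_pos (Nat.lt_succ_iff.1 (mem_range.1 he))
      rw [one_div, inv_pow]
      field_simp
    · rw [smul_zero]
  rw [h3] at h2
  have h4 := sum_half_lt ((range (k + 1)).filter Q) (fun e he => hQ1 e (mem_filter.1 he).2)
  have h5 : (0 : ℝ) < (n : ℝ) ^ (k * D) := by positivity
  nlinarith

end Q27.UC
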