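import Pool.Agent.Q27.UC.Count

/-!
# One level of the construction
-/

set_option autoImplicit false

namespace Q27.UC

open Finset

theorem pow_self_le (s : ℕ) : s ^ s ≤ 4 ^ s * s.factorial := by
  have h1 := Real.pow_div_factorial_le_exp (s : ℝ) (Nat.cast_nonneg s) s
  have h2 : Real.exp s ≤ 4 ^ s := by
    have h3 : Real.exp (s : ℝ) = Real.exp 1 ^ s := by
      rw [← Real.exp_nat_mul, mul_one]
    rw [h3]
    apply pow_le_pow_left₀ (Real.exp_pos 1).le
    have := Real.exp_one_lt_d9
    linarith
  have h4 : (0 : ℝ) < (s.factorial : ℝ) := by exact_mod_cast s.factorial_pos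
  rw [div_le_iff₀ h4] at h1
  have h5 : ((s : ℝ)) ^ s ≤ 4 ^ s * (s.factorial : ℝ) :=
    h1.trans (mul_le_mul_of_nonneg_right h2 h4.le)
  exact_mod_cast h5

theorem choose_mul_pow_le (n s : ℕ) : n.choose s * s ^ s ≤ (4 * n) ^ s := by
  have h1 := pow_self_le s
  have h2 : s.factorial * n.choose s ≤ n ^ s := by
    rw [← Nat.descFactorial_eq_factorial_mul_choose]
    exact Nat.descFactorial_le_pow n s
  calc n.choose s * s ^ s ≤ n.choose s * (4 ^ s * s.factorial) := Nat.mul_le_mul_left _ h1
    _ = 4 ^ s * (s.factorial * n.choose s) := by ring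
    _ ≤ 4 ^ s * n ^ s := Nat.mul_le_mul_left _ h2
    _ = _ := by rw [mul_pow]

/-- The inequality behind the union bound. -/
theorem union_bound {m i k e q : ℕ} (hk : k < 2 ^ (6 * (m + i + 1))) (he1 : 2 ^ (6 * i) ≤ 64 * e)
    (he2 : e ≤ 2 ^ (6 * i)) (hq : 4 * q = e * 2 ^ (4 + m)) :
    3 * q ≤ 2 ^ (16 + m + 6 * i) ∧
      k.choose e * (2 ^ (16 + m + 6 * i)).choose (3 * q) * (3 * q) ^ (4 * q) * 2 ^ e ≤
        (2 ^ (16 + m + 6 * i)) ^ (4 * q) := by
  have hq' : q = e * 2 ^ (2 + m) := by
    have e1 : (2 : ℕ) ^ (4 + m) = 4 * 2 ^ (2 + m) := by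
      rw [show 4 + m = 2 + (2 + m) by ring, pow_add]
      norm_num
    rw [e1] at hq
    have : 4 * q = 4 * (e * 2 ^ (2 + m)) := by rw [hq]; ring
    omega
  set n := 2 ^ (16 + m + 6 * i) with hn
  have hn' : n = 2 ^ 14 * (2 ^ (2 + m) * 2 ^ (6 * i)) := by
    rw [hn, ← pow_add, ← pow_add]
    congr 1
    ring
  have h1 : q ≤ 2 ^ (2 + m) * 2 ^ (6 * i) := by
    rw [hq', mul_comm]
    exact Nat.mul_le_mul_left _ he2
  have h192 : 192 * q * 2 ^ 6 ≤ n := by
    rw [hn']
    calc 192 * q * 2 ^ 6 = 12288 * q := by ring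
      _ ≤ 2 ^ 14 * (2 ^ (2 + m) * 2 ^ (6 * i)) := Nat.mul_le_mul (by norm_num) h1
  refine ⟨by omega, ?_⟩
  have he0 : 0 < e := by
    have : 0 < 2 ^ (6 * i) := by positivity
    omega
  have h2 : 8 * k ≤ e * 2 ^ (15 + 6 * m) := by
    have e1 : 2 ^ (6 * (m + i + 1)) = 2 ^ (6 * i) * 2 ^ (6 + 6 * m) := by
      rw [← pow_add]
      congr 1
      ring
    rw [e1] at hk
    have e2 : (2 : ℕ) ^ (15 + 6 * m) = 512 * 2 ^ (6 + 6 * m) := by
      rw [show 15 + 6 * m = 9 + (6 + 6 * m) by ring, pow_add]
      norm_num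
    rw [e2]
    have h3 : 2 ^ (6 * i) * 2 ^ (6 + 6 * m) ≤ 64 * e * 2 ^ (6 + 6 * m) :=
      Nat.mul_le_mul_right _ he1
    nlinarith
  have h3 : (8 * k) ^ e ≤ e ^ e * 2 ^ (6 * q) := by
    refine (Nat.pow_le_pow_left h2 e).trans ?_
    rw [mul_pow, ← pow_mul]
    apply Nat.mul_le_mul_left
    apply Nat.pow_le_pow_right (by norm_num)
    have h4 : m < 2 ^ m := Nat.lt_two_pow_self
    have h5 : 6 * q = e * (24 * 2 ^ m) := by
      rw [hq', pow_add]
      ring
    rw [h5, mul_comm]
    apply Nat.mul_le_mul_left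
    omega
  have h4 : (192 * q) ^ q * 2 ^ (6 * q) ≤ n ^ q := by
    rw [pow_mul, ← mul_pow]
    exact Nat.pow_le_pow_left h192 q
  apply Nat.le_of_mul_le_mul_right (c := e ^ e) _ (by positivity)
  have h5 := choose_mul_pow_le n (3 * q)
  have h6 := choose_mul_pow_le k e
  calc k.choose e * n.choose (3 * q) * (3 * q) ^ (4 * q) * 2 ^ e * e ^ e
      = (k.choose e * e ^ e) * (n.choose (3 * q) * (3 * q) ^ (3 * q)) * (3 * q) ^ q * 2 ^ e := by
        rw [show 4 * q = 3 * q + q by ring, pow_add]
        ring
    _ ≤ (4 * k) ^ e * (4 * n) ^ (3 * q) * (3 * q) ^ q * 2 ^ e := by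
        apply Nat.mul_le_mul_right
        apply Nat.mul_le_mul_right
        exact Nat.mul_le_mul h6 h5
    _ = (8 * k) ^ e * n ^ (3 * q) * (192 * q) ^ q := by
        have e1 : (8 * k) ^ e = (4 * k) ^ e * 2 ^ e := by
          rw [← mul_pow]
          congr 1
          ring
        have e2 : (192 * q) ^ q = 64 ^ q * (3 * q) ^ q := by
          rw [← mul_pow]
          congr 1
          ring
        have e3 : (4 * n) ^ (3 * q) = 64 ^ q * n ^ (3 * q) := by
          rw [mul_pow, pow_mul 4 3 q]
          norm_num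
        rw [e1, e2, e3]
        ring
    _ ≤ (e ^ e * 2 ^ (6 * q)) * n ^ (3 * q) * (192 * q) ^ q := by
        apply Nat.mul_le_mul_right
        exact Nat.mul_le_mul_right _ h3
    _ = ((192 * q) ^ q * 2 ^ (6 * q)) * n ^ (3 * q) * e ^ e := by ring
    _ ≤ n ^ q * n ^ (3 * q) * e ^ e := by
        apply Nat.mul_le_mul_right
        exact Nat.mul_le_mul_right _ h4
    _ = n ^ (4 * q) * e ^ e := by
        rw [← pow_add]
        congr 2
        ring

/-! ### Symbols -/

open Classical in
theorem prod_mem_of {G : Type*} [Group G] (H : Subgroup G) (L : List G)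
    (h : L.countP (fun x => decide (x ∉ H)) = 0) : L.prod ∈ H := by
  rw [List.countP_eq_zero] at h
  apply Subgroup.list_prod_mem
  intro x hx
  have := h x hx
  simpa using this

open Classical in
theorem prod_notMem_of {G : Type*} [Group G] (H : Subgroup G) (L : List G)
    (h : L.countP (fun x => decide (x ∉ H)) = 1) : L.prod ∉ H := by
  induction L with
  | nil => simp at h
  | cons a L ih =>
    rw [List.prod_cons]
    by_cases ha : a ∈ H
    · rw [List.countP_cons_of_neg (by simpa using ha)] at h
      rw [H.mul_mem_cancel_left ha]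
      exact ih h
    · rw [List.countP_cons_of_pos (by simpa using ha)] at h
      have h2 := prod_mem_of H L (by omega)
      rwa [H.mul_mem_cancel_right h2]

section sym

variable {G ι V : Type*} [Group G] [Fintype ι] [DecidableEq V]

/-- The fibre of `f`. -/
def fib (f : ι → V) (v : V) : Finset ι := univ.filter fun a => f a = v

/-- The product of the `g a` over the fibre of `v`, if this has at most `lim` elements. -/
noncomputable def sym (g : ι → G) (f : ι → V) (lim : ℕ) (v : V) : G :=
  if (fib f v).card ≤ lim then ((fib f v).toList.map g).prod else 1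

open Classical in
theorem countP_fib (g : ι → G) (f : ι → V) (v : V) (H : Subgroup G) :
    ((fib f v).toList.map g).countP (fun x => decide (x ∉ H)) =
      ((fib f v).filter fun a => g a ∉ H).card := by
  rw [List.countP_map]
  have h1 : ((fib f v).toList.countP ((fun x => decide (x ∉ H)) ∘ g)) =
      Multiset.countP (fun a => g a ∉ H) (fib f v).val := by
    conv_rhs => rw [← Finset.coe_toList]
    rw [Multiset.coe_countP]
    rfl
  rw [h1, Multiset.countP_eq_card_filter]
  rfl

theorem sym_mem {g : ι → G} {f : ι → V} {lim : ℕ} {v : V} {H : Subgroup G}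
    (h : ∀ a, f a = v → g a ∈ H) : sym g f lim v ∈ H := by
  classical
  unfold sym
  split_ifs
  · apply prod_mem_of
    rw [countP_fib, card_eq_zero, filter_eq_empty_iff]
    intro a ha
    rw [not_not]
    exact h a (mem_filter.1 ha).2
  · exact one_mem H

open Classical in
theorem sym_notMem {g : ι → G} {f : ι → V} {lim : ℕ} {v : V} {H : Subgroup G}
    (h1 : (fib f v).card ≤ lim) (h2 : ((fib f v).filter fun a => g a ∉ H).card = 1) :
    sym g f lim v ∉ H := by
  unfold sym
  rw [if_pos h1]
  apply prod_notMem_of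
  rw [countP_fib, h2]

end sym

theorem norm_prod_le {α : Type*} [DecidableEq α] (L : List α) :
    (L.map (FreeGroup.of (α := α))).prod.norm ≤ L.length := by
  induction L with
  | nil => simp
  | cons a L ih =>
    rw [List.map_cons, List.prod_cons, List.length_cons]
    refine (FreeGroup.norm_mul_le _ _).trans ?_
    rw [FreeGroup.norm_of]
    omega

open Classical in
/-- The generators outside `H`. -/
noncomputable def out {k : ℕ} (H : Subgroup (FreeGroup (Fin k))) : Finset (Fin k) :=
  univ.filter fun l => FreeGroup.of l ∉ H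

open Classical in
/-- The values of `Y` outside `H`. -/
noncomputable def fails {k : ℕ} {V : Type*} [Fintype V] (Y : V → FreeGroup (Fin k))
    (H : Subgroup (FreeGroup (Fin k))) : Finset V :=
  univ.filter fun v => Y v ∉ H

theorem level {k i m : ℕ} (hk0 : 0 < k) (hk : k < 2 ^ (6 * (m + i + 1))) :
    ∃ Y : (Fin (16 + m + 6 * i) → Bool) → FreeGroup (Fin k),
      (∀ v, (Y v).norm * 2 ^ (6 * i) ≤ 2 ^ 8 * k) ∧
      ∀ H : Subgroup (FreeGroup (Fin k)),
        (fails Y H).card ≤ 2 ^ (4 + m) * (out H).card ∧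
        (2 ^ (6 * i) ≤ 64 * (out H).card → (out H).card ≤ 2 ^ (6 * i) →
          2 ^ (4 + m) * (out H).card ≤ 4 * (fails Y H).card) := by
  classical
  have hcard : Fintype.card (Fin (16 + m + 6 * i) → Bool) = 2 ^ (16 + m + 6 * i) := by
    rw [Fintype.card_fun, Fintype.card_bool, Fintype.card_fin]
  obtain ⟨f, hf⟩ := exists_graph k (2 ^ (4 + m)) (Fin (16 + m + 6 * i) → Bool)
    (fun e => 2 ^ (6 * i) ≤ 64 * e ∧ e ≤ 2 ^ (6 * i))
    (fun e he => by
      have h1 : 0 < 2 ^ (6 * i) := by positivity
      have h2 := he.1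
      omega)
    (by rw [hcard]; positivity)
    (fun e q he _ hq => by
      rw [hcard]
      exact union_bound hk he.1 he.2 hq)
    ⟨2 ^ (2 + m), by rw [show 4 + m = 2 + (2 + m) by ring, pow_add]; norm_num⟩
  set lim := 2 ^ 8 * k / 2 ^ (6 * i) with hlim
  set g : Fin k × Fin (2 ^ (4 + m)) → FreeGroup (Fin k) := fun a => FreeGroup.of a.1 with hg
  refine ⟨sym g f lim, ?_, ?_⟩
  · intro v
    have h1 : (sym g f lim v).norm ≤ lim := by
      unfold sym
      split_ifs with h2
      · have e : (fib f v).toList.map g = ((fib f v).toList.map Prod.fst).map FreeGroup.of := by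
          rw [List.map_map]
          rfl
        rw [e]
        refine (norm_prod_le _).trans ?_
        rw [List.length_map, length_toList]
        exact h2
      · rw [FreeGroup.norm_one]
        exact Nat.zero_le _
    calc (sym g f lim v).norm * 2 ^ (6 * i) ≤ lim * 2 ^ (6 * i) := Nat.mul_le_mul_right _ h1
      _ ≤ 2 ^ 8 * k := Nat.div_mul_le_self _ _
  · intro H
    have hPE : ∀ v, ((fib f v).filter fun a => g a ∉ H) =
        ((out H ×ˢ univ : Finset (Fin k × Fin (2 ^ (4 + m)))).filter fun a => f a = v) := by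
      intro v
      ext a
      rw [mem_filter, mem_filter, fib, mem_filter, mem_product, out, mem_filter]
      simp only [mem_univ, true_and, and_true, hg]
      tauto
    constructor
    · have h1 : fails (sym g f lim) H ⊆
          (out H ×ˢ univ : Finset (Fin k × Fin (2 ^ (4 + m)))).image f := by
        intro v hv
        by_contra hcon
        apply (mem_filter.1 hv).2
        apply sym_mem
        intro a ha
        by_contra hna
        apply hcon
        exact mem_image.2 ⟨a, mem_product.2 ⟨mem_filter.2 ⟨mem_univ _, hna⟩, mem_univ _⟩, ha⟩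
      refine (card_le_card h1).trans (card_image_le.trans ?_)
      rw [card_product, card_univ, Fintype.card_fin, mul_comm]
    · intro h1 h2
      have h3 := hf (out H) ⟨h1, h2⟩
      set heavy := (univ : Finset (Fin (16 + m + 6 * i) → Bool)).filter
        (fun v => lim < (fib f v).card) with hheavy
      have h4 : uniq f (out H ×ˢ univ) ⊆ fails (sym g f lim) H ∪ heavy := by
        intro v hv
        rw [mem_union]
        by_cases h5 : lim < (fib f v).card
        · exact Or.inr (mem_filter.2 ⟨mem_univ _, h5⟩)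
        · left
          refine mem_filter.2 ⟨mem_univ _, sym_notMem (by omega) ?_⟩
          rw [hPE]
          exact (mem_filter.1 hv).2
      have h5 : (uniq f (out H ×ˢ univ)).card ≤ (fails (sym g f lim) H).card + heavy.card :=
        (card_le_card h4).trans (card_union_le _ _)
      have h6 : heavy.card * (lim + 1) ≤ k * 2 ^ (4 + m) := by
        have h7 : ∑ v : Fin (16 + m + 6 * i) → Bool, (fib f v).card = k * 2 ^ (4 + m) := by
          have h8 := card_eq_sum_card_fiberwise (s := (univ : Finset (Fin k × Fin (2 ^ (4 + m)))))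
            (t := (univ : Finset (Fin (16 + m + 6 * i) → Bool))) (f := f)
            (fun _ _ => mem_coe.2 (mem_univ _))
          rw [card_univ, Fintype.card_prod, Fintype.card_fin, Fintype.card_fin] at h8
          exact h8.symm
        rw [← h7]
        calc heavy.card * (lim + 1) = ∑ v ∈ heavy, (lim + 1) := by
              rw [sum_const, smul_eq_mul]
          _ ≤ ∑ v ∈ heavy, (fib f v).card := sum_le_sum (fun v hv => (mem_filter.1 hv).2)
          _ ≤ ∑ v, (fib f v).card :=
              sum_le_sum_of_subset_of_nonneg (subset_univ _) (fun _ _ _ => Nat.zero_le _)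
      have h7 : 2 ^ 8 * k < (lim + 1) * 2 ^ (6 * i) := by
        have h8 : 0 < 2 ^ (6 * i) := by positivity
        have h9 := Nat.lt_div_mul_add (a := 2 ^ 8 * k) h8
        rw [← hlim] at h9
        linarith
      have h8 : heavy.card * 2 ^ 8 ≤ 2 ^ (4 + m) * 2 ^ (6 * i) := by
        apply Nat.le_of_mul_le_mul_right (c := k) _ hk0
        calc heavy.card * 2 ^ 8 * k = heavy.card * (2 ^ 8 * k) := by ring
          _ ≤ heavy.card * ((lim + 1) * 2 ^ (6 * i)) := Nat.mul_le_mul_left _ h7.le
          _ = (heavy.card * (lim + 1)) * 2 ^ (6 * i) := by ring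
          _ ≤ (k * 2 ^ (4 + m)) * 2 ^ (6 * i) := Nat.mul_le_mul_right _ h6
          _ = _ := by ring
      have h9 : 2 ^ (4 + m) * 2 ^ (6 * i) ≤ 2 ^ (4 + m) * (64 * (out H).card) :=
        Nat.mul_le_mul_left _ h1
      have h10 : 2 ^ (4 + m) * (64 * (out H).card) = 64 * (2 ^ (4 + m) * (out H).card) := by ring
      rw [h10] at h9
      generalize 2 ^ (4 + m) * (out H).card = X at *
      generalize 2 ^ (4 + m) * 2 ^ (6 * i) = Z at *
      omega

/-- The last level: the generators themselves. -/
theorem top_level {k t : ℕ} (hk : k ≤ 2 ^ t) :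
    ∃ Y : (Fin t → Bool) → FreeGroup (Fin k), (∀ v, (Y v).norm ≤ 1) ∧
      ∀ H : Subgroup (FreeGroup (Fin k)), (fails Y H).card = (out H).card := by
  classical
  obtain ⟨c⟩ : Nonempty (Fin k ↪ (Fin t → Bool)) := by
    apply Function.Embedding.nonempty_of_card_le
    rw [Fintype.card_fun, Fintype.card_bool, Fintype.card_fin, Fintype.card_fin]
    exact hk
  refine ⟨fun v => if h : ∃ l, c l = v then FreeGroup.of h.choose else 1, ?_, ?_⟩
  · intro v
    simp only
    split_ifs
    · rw [FreeGroup.norm_of]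
    · rw [FreeGroup.norm_one]
      exact Nat.zero_le _
  · intro H
    symm
    apply card_bij (fun l _ => c l)
    · intro l hl
      refine mem_filter.2 ⟨mem_univ _, ?_⟩
      have h : ∃ l', c l' = c l := ⟨l, rfl⟩
      simp only
      rw [dif_pos h, c.injective h.choose_spec]
      exact (mem_filter.1 hl).2
    · intro l _ l' _ h
      exact c.injective h
    · intro v hv
      have h1 := (mem_filter.1 hv).2
      simp only at h1
      split_ifs at h1 with h
      · exact ⟨h.choose, mem_filter.2 ⟨mem_univ _, h1⟩, h.choose_spec⟩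
      · exact absurd (one_mem H) h1

end Q27.UC
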