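import Pool.Agent.Q27.UC.Level

/-!
# Products along the branches of a binary tree
-/

set_option autoImplicit false

namespace Q27.UC

open Finset

section tests

variable {G : Type*} [Group G] {T : ℕ}

/-- The bit with number `n`. -/
def bit (b : Fin T → Bool) (n : ℕ) : Bool := if h : n < T then b ⟨n, h⟩ else false

/-- Change the bit with number `n`. -/
def flip (n : ℕ) (b : Fin T → Bool) : Fin T → Bool := fun j => if j.val = n then !b j else b j

theorem bit_flip_ne {b : Fin T → Bool} {n n' : ℕ} (h : n' ≠ n) :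
    bit (flip n b) n' = bit b n' := by
  unfold bit flip
  split_ifs <;> rfl

theorem bit_flip_self {b : Fin T → Bool} {n : ℕ} (h : n < T) :
    bit (flip n b) n = !bit b n := by
  unfold bit flip
  rw [dif_pos h, dif_pos h]
  simp

theorem flip_flip (n : ℕ) (b : Fin T → Bool) : flip n (flip n b) = b := by
  funext j
  unfold flip
  split_ifs <;> simp

/-- The product of the first `n` factors. -/
def wd (t : ℕ → ℕ) (Y : ℕ → (Fin T → Bool) → G) : ℕ → (Fin T → Bool) → G
  | 0, _ => 1
  | n + 1, b => wd t Y n b * (if bit b (t n) then Y n b else 1)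

/-- The levels are well formed. -/
structure Good (T M : ℕ) (t : ℕ → ℕ) (Y : ℕ → (Fin T → Bool) → G) : Prop where
  mono : ∀ i j, i < j → j < M → t i < t j
  lt : ∀ i, i < M → t i < T
  dep : ∀ n, n < M → ∀ b b', (∀ j, j < t n → bit b j = bit b' j) → Y n b = Y n b'

variable {M : ℕ} {t : ℕ → ℕ} {Y : ℕ → (Fin T → Bool) → G}

theorem Good.Y_flip (h : Good T M t Y) {n i : ℕ} (hn : n ≤ i) (hi : i < M) (b : Fin T → Bool) :
    Y n (flip (t i) b) = Y n b := by
  apply h.dep n (by omega)
  intro j hj
  apply bit_flip_ne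
  rcases Nat.lt_or_ge n i with h1 | h1
  · have := h.mono n i h1 hi
    omega
  · have : n = i := by omega
    rw [this] at hj
    omega

theorem Good.wd_flip (h : Good T M t Y) {n i : ℕ} (hn : n ≤ i) (hi : i < M)
    (b : Fin T → Bool) : wd t Y n (flip (t i) b) = wd t Y n b := by
  induction n with
  | zero => rfl
  | succ n ih =>
    have h1 := h.mono n i (by omega) hi
    rw [wd, wd, ih (by omega), h.Y_flip (by omega) hi, bit_flip_ne (by omega)]

theorem wd_mem_iff {H : Subgroup G} {i n : ℕ} {b : Fin T → Bool} (hn : i + 1 ≤ n)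
    (hY : ∀ l, i < l → l < n → Y l b ∈ H) : wd t Y n b ∈ H ↔ wd t Y (i + 1) b ∈ H := by
  induction n, hn using Nat.le_induction with
  | base => exact Iff.rfl
  | succ n hn ih =>
    rw [← ih (fun l h1 h2 => hY l h1 (by omega)), wd]
    have h1 : (if bit b (t n) then Y n b else 1) ∈ H := by
      split_ifs
      · exact hY n (by omega) (by omega)
      · exact one_mem H
    rw [H.mul_mem_cancel_right h1]

open Classical in
theorem Good.detect (h : Good T M t Y) (H : Subgroup G) {i : ℕ} (hi : i < M) :
    (univ.filter fun b => Y i b ∉ H).card ≤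
      2 * (univ.filter fun b => wd t Y M b ∉ H).card +
      2 * ∑ l ∈ Ioo i M, (univ.filter fun b => Y l b ∉ H).card := by
  set W := univ.filter fun b => wd t Y M b ∉ H with hW
  set Bad := (Ioo i M).biUnion fun l => univ.filter fun b => Y l b ∉ H with hBad
  have h1 : Bad.card ≤ ∑ l ∈ Ioo i M, (univ.filter fun b => Y l b ∉ H).card := card_biUnion_le
  have h2 : (univ.filter fun b => Y i b ∉ H) ⊆ (W ∪ Bad) ∪ (W ∪ Bad).image (flip (t i)) := by
    intro b hb
    have hb' := (mem_filter.1 hb).2
    by_contra hcon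
    rw [mem_union, not_or, mem_union, not_or] at hcon
    obtain ⟨⟨c1, c2⟩, c3⟩ := hcon
    have c4 : flip (t i) b ∉ W ∪ Bad := fun hh =>
      c3 (mem_image.2 ⟨_, hh, flip_flip _ _⟩)
    rw [mem_union, not_or] at c4
    obtain ⟨c4, c5⟩ := c4
    have d1 : wd t Y M b ∈ H := by
      by_contra hh
      exact c1 (mem_filter.2 ⟨mem_univ _, hh⟩)
    have d2 : wd t Y M (flip (t i) b) ∈ H := by
      by_contra hh
      exact c4 (mem_filter.2 ⟨mem_univ _, hh⟩)
    have clean : ∀ b' : Fin T → Bool, b' ∉ Bad → ∀ l, i < l → l < M → Y l b' ∈ H := by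
      intro b' hb' l hl1 hl2
      by_contra hh
      exact hb' (mem_biUnion.2 ⟨l, mem_Ioo.2 ⟨hl1, hl2⟩, mem_filter.2 ⟨mem_univ _, hh⟩⟩)
    rw [wd_mem_iff (by omega) (clean _ c2), wd] at d1
    rw [wd_mem_iff (by omega) (clean _ c5), wd, h.wd_flip le_rfl hi, h.Y_flip le_rfl hi,
      bit_flip_self (h.lt i hi)] at d2
    cases hbit : bit b (t i) with
    | true =>
      rw [hbit] at d1 d2
      simp only [Bool.not_true, if_true, Bool.false_eq_true, if_false, mul_one] at d1 d2
      exact hb' ((H.mul_mem_cancel_left d2).1 d1)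
    | false =>
      rw [hbit] at d1 d2
      simp only [Bool.not_false, if_true, Bool.false_eq_true, if_false, mul_one] at d1 d2
      exact hb' ((H.mul_mem_cancel_left d1).1 d2)
  have h3 := (card_le_card h2).trans (card_union_le _ _)
  have h4 : ((W ∪ Bad).image (flip (t i))).card ≤ (W ∪ Bad).card := card_image_le
  have h5 : (W ∪ Bad).card ≤ W.card + Bad.card := card_union_le _ _
  omega

end tests

/-! ### Restriction -/

/-- The first `t` bits. -/
def restr {T : ℕ} (t : ℕ) (b : Fin T → Bool) : Fin t → Bool := fun j => bit b j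

/-- Splitting a bit string. -/
def splitEquiv {T t : ℕ} (h : t ≤ T) :
    (Fin T → Bool) ≃ (Fin t → Bool) × (Fin (T - t) → Bool) where
  toFun b := (restr t b, fun j => b ⟨t + j, by omega⟩)
  invFun p j := if hj : j.val < t then p.1 ⟨j.val, hj⟩ else p.2 ⟨j.val - t, by omega⟩
  left_inv b := by
    funext j
    simp only [restr, bit]
    split_ifs with h1 h2
    · rfl
    · exact absurd j.isLt h2
    · congr 1
      apply Fin.ext
      simp only
      omega
  right_inv p := by
    apply Prod.ext
    · funext j
      have h1 : (j : ℕ) < T := by omega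
      simp [restr, bit, h1]
    · funext j
      have h1 : ¬ (t + j.val < t) := by omega
      simp

theorem card_restr {T t : ℕ} (h : t ≤ T) (p : (Fin t → Bool) → Prop) [DecidablePred p]
    [DecidablePred fun b : Fin T → Bool => p (restr t b)] :
    (univ.filter fun b : Fin T → Bool => p (restr t b)).card =
      2 ^ (T - t) * (univ.filter p).card := by
  have h1 : (univ.filter fun b : Fin T → Bool => p (restr t b)).card =
      ((univ.filter p) ×ˢ (univ : Finset (Fin (T - t) → Bool))).card := by
    apply Finset.card_equiv (splitEquiv h)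
    intro b
    rw [mem_filter, mem_product, mem_filter]
    simp [splitEquiv]
  rw [h1, card_product, card_univ, Fintype.card_fun, Fintype.card_bool, Fintype.card_fin,
    mul_comm]

theorem norm_wd_le {k T : ℕ} (t : ℕ → ℕ) (Y : ℕ → (Fin T → Bool) → FreeGroup (Fin k)) (n : ℕ)
    (b : Fin T → Bool) : (wd t Y n b).norm ≤ ∑ i ∈ range n, (Y i b).norm := by
  induction n with
  | zero => simp [wd]
  | succ n ih =>
    rw [sum_range_succ, wd]
    refine (FreeGroup.norm_mul_le _ _).trans (Nat.add_le_add ih ?_)
    split_ifs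
    · exact le_rfl
    · rw [FreeGroup.norm_one]
      exact Nat.zero_le _

end Q27.UC
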